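import Mathlib

/-!
# Leinster groups: primes dividing one of few numbers
-/

set_option autoImplicit false

namespace LG

open Finset

theorem card_primeFactors_le {V : ℕ} (hV : V ≠ 0) : V.primeFactors.card ≤ Nat.log 2 V := by
  refine Nat.le_log_of_pow_le (by norm_num) ?_
  calc 2 ^ V.primeFactors.card = ∏ _p ∈ V.primeFactors, 2 := by rw [prod_const]
    _ ≤ ∏ p ∈ V.primeFactors, p :=
        prod_le_prod' fun p hp => (Nat.prime_of_mem_primeFactors hp).two_le
    _ ≤ V := Nat.le_of_dvd (Nat.pos_of_ne_zero hV) (Nat.prod_primeFactors_dvd V)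

/-- the primes that divide one of the sums `∑ d * v d` -/
def Bad (K b : ℕ) : Set ℕ :=
  {q | q.Prime ∧ ∃ v : ℕ → ℕ, (∀ d, v d ≤ K) ∧ 1 ≤ v 1 ∧ q ∣ ∑ d ∈ b.divisors, d * v d}

/-- a finite set that contains `Bad` -/
noncomputable def BadF (K b : ℕ) : Finset ℕ :=
  (Fintype.piFinset fun _ : b.divisors => range (K + 1)).biUnion
    fun v => (∑ d ∈ b.divisors.attach, d.1 * v d).primeFactors

theorem bad_subset {K b : ℕ} (hb : b ≠ 0) : Bad K b ⊆ (BadF K b : Set ℕ) := by
  rintro q ⟨hq, v, hv, hv1, hqv⟩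
  rw [mem_coe, BadF, mem_biUnion]
  refine ⟨fun d => v d.1, ?_, ?_⟩
  · rw [Fintype.mem_piFinset]
    intro d
    rw [mem_range]
    exact Nat.lt_succ_of_le (hv _)
  · rw [sum_attach b.divisors (fun d => d * v d), Nat.mem_primeFactors]
    refine ⟨hq, hqv, ?_⟩
    have h1 : 1 ∈ b.divisors := Nat.one_mem_divisors.mpr hb
    have h2 := single_le_sum (f := fun d => d * v d) (fun _ _ => Nat.zero_le _) h1
    intro h4
    rw [h4] at h2
    omega

theorem sum_divisors_le (b : ℕ) : ∑ d ∈ b.divisors, d ≤ b ^ 2 := by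
  calc ∑ d ∈ b.divisors, d ≤ ∑ _d ∈ b.divisors, b := sum_le_sum fun d hd => Nat.divisor_le hd
    _ = b.divisors.card * b := by rw [sum_const, smul_eq_mul]
    _ ≤ b * b := Nat.mul_le_mul_right _ (Nat.card_divisors_le_self b)
    _ = b ^ 2 := (pow_two b).symm

theorem card_badF {K b : ℕ} :
    (BadF K b).card ≤ (K + 1) ^ b.divisors.card * Nat.log 2 (K * b ^ 2) := by
  rw [BadF]
  refine card_biUnion_le.trans ?_
  have h1 : ∀ v ∈ (Fintype.piFinset fun _ : b.divisors => range (K + 1)),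
      (∑ d ∈ b.divisors.attach, d.1 * v d).primeFactors.card ≤ Nat.log 2 (K * b ^ 2) := by
    intro v hv
    rw [Fintype.mem_piFinset] at hv
    by_cases h0 : ∑ d ∈ b.divisors.attach, d.1 * v d = 0
    · rw [h0]
      simp
    · refine (card_primeFactors_le h0).trans (Nat.log_mono_right ?_)
      calc ∑ d ∈ b.divisors.attach, d.1 * v d ≤ ∑ d ∈ b.divisors.attach, d.1 * K :=
            sum_le_sum fun d _ => Nat.mul_le_mul_left _ (Nat.lt_succ_iff.mp (mem_range.mp (hv d)))
        _ = (∑ d ∈ b.divisors, d) * K := by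
            rw [sum_attach b.divisors (fun d => d * K), sum_mul]
        _ ≤ b ^ 2 * K := Nat.mul_le_mul_right _ (sum_divisors_le b)
        _ = K * b ^ 2 := mul_comm _ _
  refine (sum_le_card_nsmul _ _ _ h1).trans ?_
  rw [smul_eq_mul]
  refine Nat.mul_le_mul_right _ ?_
  rw [Fintype.card_piFinset]
  simp

end LG
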