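import Mathlib

/-!
# Leinster groups: the number of subgroups, normal Hall subgroups
-/

set_option autoImplicit false

namespace LG

open Finset

/-- `k` elements generate a subgroup of order less than `2 ^ (k + 1)`. -/
theorem exists_gen {A : Type*} [Group A] [Finite A] (k : ℕ) (H : Subgroup A)
    (hH : Nat.card H < 2 ^ (k + 1)) : ∃ f : Fin k → A, Subgroup.closure (Set.range f) = H := by
  induction k generalizing H with
  | zero =>
    refine ⟨Fin.elim0, ?_⟩
    have h1 : Nat.card H = 1 := by
      have := Nat.card_pos (α := H)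
      omega
    rw [Subgroup.card_eq_one] at h1
    rw [h1]
    simp
  | succ k ih =>
    by_cases hb : H = ⊥
    · refine ⟨fun _ => 1, ?_⟩
      rw [hb, Subgroup.closure_eq_bot_iff]
      rintro _ ⟨i, rfl⟩
      simp
    · have hfin : Set.Finite {M : Subgroup A | M < H} := Set.toFinite _
      have hne : {M : Subgroup A | M < H}.Nonempty := ⟨⊥, bot_lt_iff_ne_bot.mpr hb⟩
      obtain ⟨M, hM⟩ := hfin.exists_maximal hne
      have hMH : M < H := hM.prop
      have hcard : 2 * Nat.card M ≤ Nat.card H := by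
        have h1 := Subgroup.card_dvd_of_le hMH.le
        obtain ⟨c, hc⟩ := h1
        have h2 : c ≠ 0 := by
          rintro rfl
          rw [mul_zero] at hc
          exact (Nat.card_pos (α := H)).ne' hc
        have h3 : c ≠ 1 := by
          rintro rfl
          rw [mul_one] at hc
          exact hMH.ne (Subgroup.eq_of_le_of_card_ge hMH.le hc.le)
        rw [hc, mul_comm]
        exact Nat.mul_le_mul_left _ (by omega)
      obtain ⟨f, hf⟩ := ih M (by
        rw [pow_succ] at hH
        omega)
      obtain ⟨x, hxH, hxM⟩ := SetLike.exists_of_lt hMH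
      refine ⟨Fin.cons x f, ?_⟩
      have h1 : Subgroup.closure (Set.range (Fin.cons x f : Fin (k + 1) → A)) =
          Subgroup.closure {x} ⊔ M := by
        rw [Fin.range_cons, Set.insert_eq, Subgroup.closure_union, hf]
      rw [h1]
      have hle : Subgroup.closure {x} ⊔ M ≤ H := by
        rw [sup_le_iff, Subgroup.closure_le]
        exact ⟨Set.singleton_subset_iff.mpr hxH, hMH.le⟩
      by_contra hcon
      have hlt : Subgroup.closure {x} ⊔ M < H := lt_of_le_of_ne hle hcon
      have h2 : Subgroup.closure {x} ⊔ M ≤ M := hM.le_of_ge hlt le_sup_right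
      apply hxM
      apply h2
      apply (le_sup_left : Subgroup.closure {x} ≤ _)
      exact Subgroup.subset_closure rfl

theorem card_subgroup_le (A : Type*) [Group A] [Finite A] :
    Nat.card (Subgroup A) ≤ Nat.card A ^ Nat.log 2 (Nat.card A) := by
  set k := Nat.log 2 (Nat.card A) with hk
  have hsurj : Function.Surjective (fun f : Fin k → A => Subgroup.closure (Set.range f)) := by
    intro H
    apply exists_gen
    have h1 : Nat.card H ≤ Nat.card A := Subgroup.card_le_card_group H
    have h2 := Nat.lt_pow_succ_log_self (b := 2) (by norm_num) (Nat.card A)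
    exact h1.trans_lt h2
  have h1 := Nat.card_le_card_of_surjective _ hsurj
  refine h1.trans ?_
  rw [Nat.card_fun]
  simp

/-- A prime `r` such that `r ^ 2` does not divide the order and no divisor of the order greater
than `1` is `1` modulo `r`: there is a normal subgroup of order `r`. -/
theorem exists_normal {G : Type*} [Group G] [Finite G] {r : ℕ} (hr : r.Prime)
    (h1 : r ∣ Nat.card G) (h2 : ¬ r ^ 2 ∣ Nat.card G)
    (h3 : ∀ d, d ∣ Nat.card G → d % r = 1 → d = 1) :
    ∃ Q : Subgroup G, Q.Normal ∧ Nat.card Q = r := by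
  have : Fact r.Prime := ⟨hr⟩
  have e1 := card_sylow_modEq_one r G
  obtain ⟨P⟩ : Nonempty (Sylow r G) := inferInstance
  have e2 := P.card_dvd_index
  have e3 : Nat.card (Sylow r G) ∣ Nat.card G := e2.trans (Subgroup.index_dvd_card _)
  have e4 : Nat.card (Sylow r G) % r = 1 := by
    have := e1
    rw [Nat.ModEq, Nat.mod_eq_of_lt hr.one_lt] at this
    exact this
  have e5 := h3 _ e3 e4
  have : Subsingleton (Sylow r G) := (Nat.card_eq_one_iff_unique.mp e5).1
  refine ⟨P, P.normal_of_subsingleton, ?_⟩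
  rw [Sylow.card_eq_multiplicity]
  have e6 : (Nat.card G).factorization r = 1 := by
    have h0 : Nat.card G ≠ 0 := Nat.card_pos.ne'
    apply le_antisymm
    · by_contra hcon
      exact h2 ((hr.pow_dvd_iff_le_factorization h0).mpr (by omega))
    · exact (hr.dvd_iff_one_le_factorization h0).mp h1
  rw [e6, pow_one]

/-- the condition on the primes of `b` -/
def Cond (n b : ℕ) : Prop :=
  ∀ r : ℕ, r.Prime → r ∣ b → ¬ r ^ 2 ∣ n ∧ ∀ d, d ∣ n → d % r = 1 → d = 1

theorem exists_hall : ∀ (b : ℕ) (G : Type) [Group G] [Finite G], b ∣ Nat.card G →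
    Cond (Nat.card G) b → ∃ B : Subgroup G, B.Normal ∧ B.index * b = Nat.card G := by
  intro b
  induction b using Nat.strong_induction_on with
  | _ b ih =>
    intro G _ _ hb hc
    have hn0 : Nat.card G ≠ 0 := Nat.card_pos.ne'
    have hb0 : b ≠ 0 := by
      rintro rfl
      exact hn0 (Nat.eq_zero_of_zero_dvd hb)
    rcases Nat.eq_or_lt_of_le (Nat.one_le_iff_ne_zero.mpr hb0) with h1 | h1
    · refine ⟨⊥, inferInstance, ?_⟩
      rw [← h1, mul_one, Subgroup.index_bot]
    · set r := b.minFac with hrdef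
      have hr : r.Prime := Nat.minFac_prime h1.ne'
      have hrb : r ∣ b := Nat.minFac_dvd b
      obtain ⟨hr2, hr3⟩ := hc r hr hrb
      obtain ⟨Q, hQ, hQr⟩ := exists_normal hr (hrb.trans hb) hr2 hr3
      obtain ⟨b', hb'⟩ := hrb
      have hcard : Nat.card (G ⧸ Q) * r = Nat.card G := by
        rw [← hQr]
        exact (Subgroup.card_eq_card_quotient_mul_card_subgroup Q).symm
      have hb'lt : b' < b := by
        rw [hb']
        have : 0 < b' := Nat.pos_of_ne_zero (by rintro rfl; exact hb0 (by rw [hb', mul_zero]))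
        nlinarith [hr.two_le]
      have hdvd : b' ∣ Nat.card (G ⧸ Q) := by
        obtain ⟨c, hc'⟩ := hb
        refine ⟨c, ?_⟩
        have : Nat.card (G ⧸ Q) * r = (b' * c) * r := by
          rw [hcard, hc', hb']
          ring
        exact Nat.eq_of_mul_eq_mul_right hr.pos this
      have hd2 : Nat.card (G ⧸ Q) ∣ Nat.card G := ⟨r, hcard.symm⟩
      have hcond : Cond (Nat.card (G ⧸ Q)) b' := by
        intro s hs hsb
        obtain ⟨h4, h5⟩ := hc s hs (hsb.trans ⟨r, by rw [hb', mul_comm]⟩)
        exact ⟨fun h => h4 (h.trans hd2), fun d hd => h5 d (hd.trans hd2)⟩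
      obtain ⟨B', hB', hB'i⟩ := ih b' hb'lt (G ⧸ Q) hdvd hcond
      refine ⟨B'.comap (QuotientGroup.mk' Q), hB'.comap _, ?_⟩
      rw [Subgroup.index_comap_of_surjective _ (QuotientGroup.mk'_surjective Q), ← hcard, ← hB'i,
        hb']
      ring

/-- a normal subgroup is determined by its image modulo `B` and by the part of its order in `b` -/
theorem inj_le {G : Type*} [Group G] [Finite G] {b : ℕ} (hc : ∀ r : ℕ, r.Prime → r ∣ b →
    ¬ r ^ 2 ∣ Nat.card G) {B N N' : Subgroup G} (hB : Nat.card B = b)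
    (hN : N.Normal) (hd : Nat.gcd (Nat.card N) b = Nat.gcd (Nat.card N') b)
    (hBB : N ⊔ B = N' ⊔ B) : N' ≤ N := by
  have hN0 : N.Normal := hN
  have h0 : N ⊔ N' ≤ N ⊔ B := by
    rw [sup_le_iff]
    refine ⟨le_sup_left, ?_⟩
    rw [hBB]
    exact le_sup_left
  have e0 := Subgroup.relIndex_mul_relIndex N (N ⊔ N') (N ⊔ B) le_sup_left h0
  rw [Subgroup.relIndex_sup_left (K := N) (H := N'), Subgroup.relIndex_sup_left (K := N) (H := B)]
    at e0
  have h1 : N.relIndex N' ∣ b := by
    have e1 : N.relIndex N' ∣ N.relIndex B := ⟨_, e0.symm⟩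
    exact e1.trans (hB ▸ Subgroup.relIndex_dvd_card N B)
  have h2 : N.relIndex N' = 1 := by
    by_contra hcon
    obtain ⟨r, hr, hrd⟩ := Nat.exists_prime_and_dvd hcon
    have hrb : r ∣ b := hrd.trans h1
    have hrN' : r ∣ Nat.card N' := hrd.trans (Subgroup.relIndex_dvd_card N N')
    have hrN : r ∣ Nat.card N := by
      have h3 : r ∣ Nat.gcd (Nat.card N') b := Nat.dvd_gcd hrN' hrb
      rw [← hd] at h3
      exact h3.trans (Nat.gcd_dvd_left _ _)
    apply hc r hr hrb
    have h4 : Nat.card N * N.relIndex N' = Nat.card (N ⊔ N' : Subgroup G) := by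
      rw [← Subgroup.relIndex_sup_left (K := N) (H := N'), ← Subgroup.relIndex_bot_left,
        ← Subgroup.relIndex_bot_left, Subgroup.relIndex_mul_relIndex _ _ _ bot_le le_sup_left]
    rw [pow_two]
    exact (mul_dvd_mul hrN hrd).trans (h4 ▸ Subgroup.card_subgroup_dvd_card _)
  rw [Subgroup.relIndex_eq_one] at h2
  exact h2

theorem inj {G : Type*} [Group G] [Finite G] {b : ℕ} (hc : ∀ r : ℕ, r.Prime → r ∣ b →
    ¬ r ^ 2 ∣ Nat.card G) {B N N' : Subgroup G} (hB : Nat.card B = b)
    (hN : N.Normal) (hN' : N'.Normal) (hd : Nat.gcd (Nat.card N) b = Nat.gcd (Nat.card N') b)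
    (hBB : N ⊔ B = N' ⊔ B) : N = N' :=
  le_antisymm (inj_le hc hB hN' hd.symm hBB.symm) (inj_le hc hB hN hd hBB)

/-- the number of normal subgroups with given part of the order in `b` -/
theorem card_fibre {G : Type} [Group G] [Finite G] {a b : ℕ} (hab : Nat.card G = a * b)
    (hc : Cond (Nat.card G) b) (d : ℕ) :
    Nat.card {N : Subgroup G // N.Normal ∧ Nat.gcd (Nat.card N) b = d} ≤ a ^ Nat.log 2 a := by
  have hn0 : Nat.card G ≠ 0 := Nat.card_pos.ne'
  have hb0 : b ≠ 0 := by
    rintro rfl
    exact hn0 (by rw [hab, mul_zero])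
  obtain ⟨B, hBn, hB⟩ := exists_hall b G ⟨a, by rw [hab, mul_comm]⟩ hc
  have hi : B.index = a := Nat.eq_of_mul_eq_mul_right (Nat.pos_of_ne_zero hb0) (hB.trans hab)
  have ha0 : a ≠ 0 := by
    rintro rfl
    exact hn0 (by rw [hab, zero_mul])
  have hBc : Nat.card B = b := by
    have h1 := B.index_mul_card
    rw [hi, hab] at h1
    exact Nat.eq_of_mul_eq_mul_left (Nat.pos_of_ne_zero ha0) h1
  have hq : Nat.card (G ⧸ B) = a := hi
  have h2 := card_subgroup_le (G ⧸ B)
  rw [hq] at h2
  refine le_trans ?_ h2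
  refine Nat.card_le_card_of_injective (fun N => (N.1.map (QuotientGroup.mk' B))) ?_
  intro N N' hNN
  apply Subtype.ext
  have h3 := (Subgroup.map_eq_map_iff).mp hNN
  rw [QuotientGroup.ker_mk'] at h3
  exact inj (fun r hr hrb => (hc r hr hrb).1) hBc N.2.1 N'.2.1 (N.2.2.trans N'.2.2.symm) h3

end LG
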