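import Pool.Agent.Helper75.LG.Fin

/-!
# Leinster groups: the final asymptotic bound
-/

set_option autoImplicit false

namespace LG

open Finset Pool.GDS

theorem rpow_le_rpow_exp {L a b : ℝ} (hL : 1 ≤ L) (hab : a ≤ b) : L ^ a ≤ L ^ b :=
  Real.rpow_le_rpow_of_exponent_le hL hab

theorem exp_neg_le_cube {u : ℝ} (hu : 0 < u) : Real.exp (-u) ≤ 6 / u ^ 3 := by
  rw [Real.exp_neg, le_div_iff₀ (by positivity), inv_mul_le_iff₀ (Real.exp_pos u)]
  have h := Real.pow_div_factorial_le_exp u hu.le 3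
  have h2 : (Nat.factorial 3 : ℝ) = 6 := by norm_num [Nat.factorial]
  rw [h2, div_le_iff₀ (by norm_num)] at h
  linarith

theorem term1 {L x ly : ℝ} (hL : 1 ≤ L) (hx : 0 ≤ x) (hy : ly ≤ L ^ (19 / 20 : ℝ)) :
    2 * x * (ly + Real.log 4) / L ^ (39 / 40 : ℝ) ≤ 6 * x / L ^ (1 / 40 : ℝ) := by
  have hL0 : 0 < L := by linarith
  have h4 : Real.log 4 ≤ 2 := by
    have := Real.log_two_lt_d9
    have h : (4 : ℝ) = 2 ^ 2 := by norm_num
    rw [h, Real.log_pow]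
    push_cast
    linarith
  have h1 : 1 ≤ L ^ (19 / 20 : ℝ) := Real.one_le_rpow hL (by norm_num)
  have h2 : L ^ (39 / 40 : ℝ) = L ^ (19 / 20 : ℝ) * L ^ (1 / 40 : ℝ) := by
    rw [← Real.rpow_add hL0]
    norm_num
  rw [h2, div_le_div_iff₀ (by positivity) (by positivity)]
  have h5 : 0 < L ^ (1 / 40 : ℝ) := by positivity
  have h6 : 2 * x * (ly + Real.log 4) ≤ 6 * x * L ^ (19 / 20 : ℝ) := by
    have h7 : ly + Real.log 4 ≤ 3 * L ^ (19 / 20 : ℝ) := by linarith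
    calc 2 * x * (ly + Real.log 4) ≤ 2 * x * (3 * L ^ (19 / 20 : ℝ)) :=
          mul_le_mul_of_nonneg_left h7 (by linarith)
      _ = _ := by ring
  calc _ ≤ (6 * x * L ^ (19 / 20 : ℝ)) * L ^ (1 / 40 : ℝ) :=
        mul_le_mul_of_nonneg_right h6 h5.le
    _ = _ := by ring

theorem term2 {L x lz : ℝ} (hL : 1 ≤ L) (hx : 0 ≤ x) (hz : lz ≤ Real.log (L ^ 2 + 1)) :
    2 * x * (lz + Real.log 4) / L ^ (13 / 500 : ℝ) ≤ 4006 * x / L ^ (1 / 40 : ℝ) := by
  have hL0 : 0 < L := by linarith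
  have h4 : Real.log 4 ≤ 2 := by
    have := Real.log_two_lt_d9
    have h : (4 : ℝ) = 2 ^ 2 := by norm_num
    rw [h, Real.log_pow]
    push_cast
    linarith
  have h1 : 1 ≤ L ^ (1 / 1000 : ℝ) := Real.one_le_rpow hL (by norm_num)
  have h3 : Real.log (L ^ 2 + 1) ≤ 1 + 2000 * L ^ (1 / 1000 : ℝ) := by
    have h5 : Real.log (L ^ 2 + 1) ≤ Real.log (2 * L ^ 2) :=
      Real.log_le_log (by positivity) (by nlinarith)
    have h6 := Real.log_le_rpow_div hL0.le (ε := 1 / 1000) (by norm_num)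
    rw [Real.log_mul (by norm_num) (by positivity), Real.log_pow] at h5
    push_cast at h5
    have := Real.log_two_lt_d9
    have h7 : L ^ (1 / 1000 : ℝ) / (1 / 1000) = 1000 * L ^ (1 / 1000 : ℝ) := by ring
    linarith
  have h2 : L ^ (13 / 500 : ℝ) = L ^ (1 / 1000 : ℝ) * L ^ (1 / 40 : ℝ) := by
    rw [← Real.rpow_add hL0]
    norm_num
  rw [h2, div_le_div_iff₀ (by positivity) (by positivity)]
  have h5 : 0 < L ^ (1 / 40 : ℝ) := by positivity
  have h6 : 2 * x * (lz + Real.log 4) ≤ 4006 * x * L ^ (1 / 1000 : ℝ) := by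
    have h7 : lz + Real.log 4 ≤ 2003 * L ^ (1 / 1000 : ℝ) := by linarith
    calc 2 * x * (lz + Real.log 4) ≤ 2 * x * (2003 * L ^ (1 / 1000 : ℝ)) :=
          mul_le_mul_of_nonneg_left h7 (by linarith)
      _ = _ := by ring
  calc _ ≤ (4006 * x * L ^ (1 / 1000 : ℝ)) * L ^ (1 / 40 : ℝ) :=
        mul_le_mul_of_nonneg_right h6 h5.le
    _ = _ := by ring

theorem term3 {L x z : ℝ} (hL : 1 ≤ L) (hx : 0 ≤ x) (hz : L ^ 2 ≤ z) :
    x * (2 + L) / z ≤ 3 * x / L ^ (1 / 40 : ℝ) := by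
  have hL0 : 0 < L := by linarith
  have h1 : L ^ (1 / 40 : ℝ) ≤ L := by
    calc L ^ (1 / 40 : ℝ) ≤ L ^ (1 : ℝ) := rpow_le_rpow_exp hL (by norm_num)
      _ = L := Real.rpow_one L
  have h2 : 0 < L ^ (1 / 40 : ℝ) := by positivity
  have hz0 : 0 < z := lt_of_lt_of_le (by positivity) hz
  rw [div_le_div_iff₀ hz0 h2]
  calc x * (2 + L) * L ^ (1 / 40 : ℝ) ≤ x * (3 * L) * L := by
        refine mul_le_mul ?_ h1 h2.le (by positivity)
        exact mul_le_mul_of_nonneg_left (by linarith) hx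
    _ = 3 * x * L ^ 2 := by ring
    _ ≤ 3 * x * z := mul_le_mul_of_nonneg_left hz (by linarith)

theorem term4 {L x C : ℝ} (hL : 1 ≤ L) (hx : 0 ≤ x) (hC : 0 ≤ C) :
    C * x * L ^ (Real.sqrt 2 - 1) / Real.sqrt (L ^ (89 / 100 : ℝ)) ≤
      C * x / L ^ (1 / 40 : ℝ) := by
  have hL0 : 0 < L := by linarith
  have h1 : Real.sqrt 2 ≤ 71 / 50 := by
    rw [Real.sqrt_le_left (by norm_num)]
    norm_num
  have h2 : Real.sqrt (L ^ (89 / 100 : ℝ)) = L ^ (89 / 200 : ℝ) := by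
    rw [Real.sqrt_eq_rpow, ← Real.rpow_mul hL0.le]
    norm_num
  rw [h2, div_le_div_iff₀ (by positivity) (by positivity), mul_assoc, mul_assoc,
    ← Real.rpow_add hL0]
  have h3 : L ^ (Real.sqrt 2 - 1 + 1 / 40) ≤ L ^ (89 / 200 : ℝ) :=
    rpow_le_rpow_exp hL (by linarith)
  calc C * (x * L ^ (Real.sqrt 2 - 1 + 1 / 40)) ≤ C * (x * L ^ (89 / 200 : ℝ)) :=
        mul_le_mul_of_nonneg_left (mul_le_mul_of_nonneg_left h3 hx) hC
    _ = _ := by ring

theorem kk_le {L : ℝ} (hL : 1 ≤ L) {Z : ℕ} (hZ1 : 1 ≤ Z)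
    (hZ : (Z : ℝ) ≤ Real.exp (L ^ (13 / 500 : ℝ))) :
    (KK Z : ℝ) ≤ Real.exp (3 * L ^ (13 / 250 : ℝ)) := by
  have hL0 : 0 < L := by linarith
  have hZ0 : (0 : ℝ) < Z := by exact_mod_cast hZ1
  set b := L ^ (13 / 500 : ℝ) with hb
  have hb1 : 1 ≤ b := Real.one_le_rpow hL (by norm_num)
  have hbb : L ^ (13 / 250 : ℝ) = b * b := by
    rw [hb, ← Real.rpow_add hL0]
    norm_num
  have h1 : (Nat.log 2 Z : ℝ) ≤ 2 * b := by
    have h2 := Real.natLog_le_logb Z 2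
    have h3 : Real.logb (2 : ℕ) Z ≤ 2 * b := by
      rw [Real.logb, div_le_iff₀ (Real.log_pos (by norm_num))]
      have h4 : Real.log Z ≤ b := by
        rw [Real.log_le_iff_le_exp hZ0]
        exact hZ
      have h5 := Real.log_two_gt_d9
      push_cast
      nlinarith
    exact h2.trans h3
  have h2 : (KK Z : ℝ) = (Z : ℝ) ^ (1 + Nat.log 2 Z) := by
    unfold KK
    push_cast
    rw [pow_add, pow_one]
  rw [h2, hbb]
  calc (Z : ℝ) ^ (1 + Nat.log 2 Z) ≤ (Real.exp b) ^ (1 + Nat.log 2 Z) :=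
        pow_le_pow_left₀ hZ0.le hZ _
    _ = Real.exp (((1 + Nat.log 2 Z : ℕ) : ℝ) * b) := by rw [Real.exp_nat_mul]
    _ ≤ Real.exp (3 * (b * b)) := by
        rw [Real.exp_le_exp]
        push_cast
        nlinarith

theorem term5 {L : ℝ} (hL : 8 ^ 125 ≤ L) {x y Z T : ℕ} (hx : 1 ≤ x) (hxL : Real.log x = L)
    (hy : Real.exp (L ^ (19 / 20 : ℝ)) ≤ (y : ℝ) + 1) (hZ1 : 1 ≤ Z)
    (hZ : (Z : ℝ) ≤ Real.exp (L ^ (13 / 500 : ℝ))) (hT : (T : ℝ) ≤ L ^ (89 / 100 : ℝ)) :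
    (x / ((y : ℝ) + 1)) * (((KK Z : ℝ) + 1) ^ T * (Nat.log 2 (KK Z * x ^ 2) : ℝ)) ≤
      480 * x / L ^ (1 / 40 : ℝ) := by
  have hL1 : 1 ≤ L := le_trans (by norm_num) hL
  have hL0 : 0 < L := by linarith
  have hx0 : (0 : ℝ) < x := by exact_mod_cast hx
  have hk := kk_le hL1 hZ1 hZ
  set w := L ^ (13 / 250 : ℝ) with hw
  have hw1 : 1 ≤ w := Real.one_le_rpow hL1 (by norm_num)
  have hKpos : (0 : ℝ) < KK Z := by
    have : 0 < KK Z := by
      unfold KK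
      positivity
    exact_mod_cast this
  -- the power
  have h1 : (KK Z : ℝ) + 1 ≤ Real.exp (4 * w) := by
    have h2 : Real.exp (4 * w) = Real.exp (3 * w) * Real.exp w := by
      rw [← Real.exp_add]
      congr 1
      ring
    have h3 : 2 ≤ Real.exp w := by
      have := Real.add_one_le_exp w
      linarith
    have h4 : 1 ≤ Real.exp (3 * w) := Real.one_le_exp (by linarith)
    rw [h2]
    nlinarith
  have h2 : ((KK Z : ℝ) + 1) ^ T ≤ Real.exp (4 * L ^ (471 / 500 : ℝ)) := by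
    calc ((KK Z : ℝ) + 1) ^ T ≤ (Real.exp (4 * w)) ^ T := pow_le_pow_left₀ (by positivity) h1 _
      _ = Real.exp ((T : ℝ) * (4 * w)) := by rw [Real.exp_nat_mul]
      _ ≤ Real.exp (4 * L ^ (471 / 500 : ℝ)) := by
          rw [Real.exp_le_exp]
          have h3 : L ^ (471 / 500 : ℝ) = L ^ (89 / 100 : ℝ) * w := by
            rw [hw, ← Real.rpow_add hL0]
            norm_num
          rw [h3]
          have := mul_le_mul_of_nonneg_right hT (by linarith : 0 ≤ w)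
          linarith
  -- the logarithm
  have h3 : (Nat.log 2 (KK Z * x ^ 2) : ℝ) ≤ 10 * L := by
    have h4 := Real.natLog_le_logb (KK Z * x ^ 2) 2
    refine h4.trans ?_
    rw [Real.logb, div_le_iff₀ (Real.log_pos (by norm_num))]
    push_cast
    rw [Real.log_mul hKpos.ne' (by positivity), Real.log_pow, hxL]
    have h5 : Real.log (KK Z) ≤ 3 * w := by
      rw [Real.log_le_iff_le_exp hKpos]
      exact hk
    have h6 : w ≤ L := by
      calc w ≤ L ^ (1 : ℝ) := rpow_le_rpow_exp hL1 (by norm_num)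
        _ = L := Real.rpow_one L
    have h7 := Real.log_two_gt_d9
    push_cast
    nlinarith
  -- the first factor
  have h4 : (x : ℝ) / ((y : ℝ) + 1) ≤ x * Real.exp (-L ^ (19 / 20 : ℝ)) := by
    rw [Real.exp_neg, ← div_eq_mul_inv]
    exact div_le_div_of_nonneg_left hx0.le (Real.exp_pos _) hy
  -- exponents
  have h5 : 4 * L ^ (471 / 500 : ℝ) ≤ L ^ (19 / 20 : ℝ) / 2 := by
    have h6 : L ^ (19 / 20 : ℝ) = L ^ (471 / 500 : ℝ) * L ^ (1 / 125 : ℝ) := by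
      rw [← Real.rpow_add hL0]
      norm_num
    have h7 : (8 : ℝ) ≤ L ^ (1 / 125 : ℝ) := by
      have h8 : ((8 : ℝ) ^ 125) ^ (1 / 125 : ℝ) = 8 := by
        rw [← Real.rpow_natCast, ← Real.rpow_mul (by norm_num)]
        norm_num
      calc (8 : ℝ) = ((8 : ℝ) ^ 125) ^ (1 / 125 : ℝ) := h8.symm
        _ ≤ L ^ (1 / 125 : ℝ) := Real.rpow_le_rpow (by norm_num) hL (by norm_num)
    rw [h6]
    have h9 : 0 < L ^ (471 / 500 : ℝ) := by positivity
    nlinarith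
  have h6 : (x / ((y : ℝ) + 1)) * (((KK Z : ℝ) + 1) ^ T * (Nat.log 2 (KK Z * x ^ 2) : ℝ)) ≤
      (x * Real.exp (-L ^ (19 / 20 : ℝ))) * (Real.exp (4 * L ^ (471 / 500 : ℝ)) * (10 * L)) := by
    refine mul_le_mul h4 (mul_le_mul h2 h3 (Nat.cast_nonneg _) (Real.exp_pos _).le)
      (by positivity) (by positivity)
  refine h6.trans ?_
  have h7 : (x * Real.exp (-L ^ (19 / 20 : ℝ))) * (Real.exp (4 * L ^ (471 / 500 : ℝ)) * (10 * L)) =
      x * (10 * L) * Real.exp (-L ^ (19 / 20 : ℝ) + 4 * L ^ (471 / 500 : ℝ)) := by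
    rw [Real.exp_add]
    ring
  have h8 : Real.exp (-L ^ (19 / 20 : ℝ) + 4 * L ^ (471 / 500 : ℝ)) ≤
      6 / (L ^ (19 / 20 : ℝ) / 2) ^ 3 := by
    refine le_trans ?_ (exp_neg_le_cube (by positivity))
    rw [Real.exp_le_exp]
    linarith
  have h9 : (L ^ (19 / 20 : ℝ) / 2) ^ 3 = L ^ (57 / 20 : ℝ) / 8 := by
    rw [div_pow, ← Real.rpow_natCast, ← Real.rpow_mul hL0.le]
    norm_num
  rw [h7]
  calc x * (10 * L) * Real.exp (-L ^ (19 / 20 : ℝ) + 4 * L ^ (471 / 500 : ℝ)) ≤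
      x * (10 * L) * (6 / (L ^ (57 / 20 : ℝ) / 8)) := by
        rw [← h9]
        exact mul_le_mul_of_nonneg_left h8 (by positivity)
    _ = 480 * x * L / L ^ (57 / 20 : ℝ) := by
        field_simp
        ring
    _ ≤ 480 * x / L ^ (1 / 40 : ℝ) := by
        rw [div_le_div_iff₀ (by positivity) (by positivity)]
        have h10 : L * L ^ (1 / 40 : ℝ) ≤ L ^ (57 / 20 : ℝ) := by
          calc L * L ^ (1 / 40 : ℝ) = L ^ (1 + 1 / 40 : ℝ) := by
                rw [Real.rpow_add hL0, Real.rpow_one]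
            _ ≤ _ := rpow_le_rpow_exp hL1 (by norm_num)
        calc 480 * x * L * L ^ (1 / 40 : ℝ) = 480 * x * (L * L ^ (1 / 40 : ℝ)) := by ring
          _ ≤ 480 * x * L ^ (57 / 20 : ℝ) := mul_le_mul_of_nonneg_left h10 (by positivity)

end LG
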