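import Mathlib

/-!
# Leinster groups: the smooth part of a natural number
-/

set_option autoImplicit false

namespace LG

open Finset

/-- the `z`-smooth part of `n` -/
noncomputable def sm (z n : ℕ) : ℕ := ∏ p ∈ (range (z + 1)).filter Nat.Prime, p ^ n.factorization p

theorem mem_ps {z p : ℕ} : p ∈ (range (z + 1)).filter Nat.Prime ↔ p ≤ z ∧ p.Prime := by
  rw [mem_filter, mem_range, Nat.lt_succ_iff]

theorem sm_pos (z n : ℕ) : 0 < sm z n :=
  prod_pos fun _ hp => pow_pos (mem_ps.mp hp).2.pos _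

theorem factorization_sm {z n p : ℕ} (hp : p.Prime) :
    (sm z n).factorization p = if p ≤ z then n.factorization p else 0 := by
  unfold sm
  rw [Nat.factorization_prod_apply fun q hq => (pow_pos (mem_ps.mp hq).2.pos _).ne']
  have h1 : ∀ q ∈ (range (z + 1)).filter Nat.Prime,
      (q ^ n.factorization q).factorization p = if p = q then n.factorization p else 0 := by
    intro q hq
    rw [Nat.Prime.factorization_pow (mem_ps.mp hq).2, Finsupp.single_apply]
    by_cases h : q = p
    · rw [if_pos h, if_pos h.symm, h]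
    · rw [if_neg h, if_neg (Ne.symm h)]
  rw [sum_congr rfl h1, sum_ite_eq]
  by_cases h : p ≤ z
  · rw [if_pos (mem_ps.mpr ⟨h, hp⟩), if_pos h]
  · rw [if_neg (fun h2 => h (mem_ps.mp h2).1), if_neg h]

theorem sm_dvd (z : ℕ) {n : ℕ} (hn : n ≠ 0) : sm z n ∣ n := by
  rw [← Nat.factorization_le_iff_dvd (sm_pos z n).ne' hn]
  intro p
  by_cases hp : p.Prime
  · rw [factorization_sm hp]
    split_ifs
    · exact le_rfl
    · exact Nat.zero_le _
  · rw [Nat.factorization_eq_zero_of_not_prime _ hp]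
    exact Nat.zero_le _

theorem div_sm_ne_zero (z : ℕ) {n : ℕ} (hn : n ≠ 0) : n / sm z n ≠ 0 :=
  (Nat.div_pos (Nat.le_of_dvd (Nat.pos_of_ne_zero hn) (sm_dvd z hn)) (sm_pos z n)).ne'

theorem sm_mul_div (z : ℕ) {n : ℕ} (hn : n ≠ 0) : sm z n * (n / sm z n) = n :=
  Nat.mul_div_cancel' (sm_dvd z hn)

theorem factorization_div_sm {z n p : ℕ} (hn : n ≠ 0) (hp : p.Prime) :
    (n / sm z n).factorization p = if p ≤ z then 0 else n.factorization p := by
  rw [Nat.factorization_div (sm_dvd z hn), Finsupp.tsub_apply, factorization_sm hp]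
  split_ifs <;> omega

theorem lt_of_dvd_div {z n p : ℕ} (hn : n ≠ 0) (hp : p.Prime) (h : p ∣ n / sm z n) : z < p := by
  by_contra hcon
  have h1 := (hp.dvd_iff_one_le_factorization (div_sm_ne_zero z hn)).mp h
  rw [factorization_div_sm hn hp, if_pos (not_lt.mp hcon)] at h1
  omega

theorem coprime_sm (z : ℕ) {n : ℕ} (hn : n ≠ 0) : Nat.Coprime (sm z n) (n / sm z n) := by
  refine Nat.Coprime.symm (Nat.coprime_of_dvd fun p hp h1 h2 => ?_)
  have h3 := lt_of_dvd_div hn hp h1
  have h4 := (hp.dvd_iff_one_le_factorization (sm_pos z n).ne').mp h2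
  rw [factorization_sm hp, if_neg (not_le.mpr h3)] at h4
  omega

theorem sm_mul_prime {z q m : ℕ} (hq : q.Prime) (hzq : z < q) (hm : m ≠ 0) :
    sm z (q * m) = sm z m := by
  unfold sm
  refine prod_congr rfl fun p hp => ?_
  have h1 : p ≠ q := by
    rintro rfl
    have := (mem_ps.mp hp).1
    omega
  rw [Nat.factorization_mul hq.ne_zero hm, Finsupp.add_apply, hq.factorization,
    Finsupp.single_apply, if_neg (Ne.symm h1), zero_add]

theorem gcd_dvd_sm {y n s : ℕ} (hn : n ≠ 0) (h : ∀ q, q.Prime → y < q → q ∣ n → ¬ q ∣ s) :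
    Nat.gcd n s ∣ sm y n := by
  have hg : Nat.gcd n s ≠ 0 := fun h1 => hn (Nat.eq_zero_of_gcd_eq_zero_left h1)
  rw [← Nat.factorization_le_iff_dvd hg (sm_pos y n).ne']
  intro p
  by_cases hp : p.Prime
  · rw [factorization_sm hp]
    split_ifs with h1
    · exact (Nat.factorization_le_iff_dvd hg hn).mpr (Nat.gcd_dvd_left _ _) p
    · by_contra hcon
      have h2 : p ∣ Nat.gcd n s := (hp.dvd_iff_one_le_factorization hg).mpr (by omega)
      exact h p hp (not_le.mp h1) (h2.trans (Nat.gcd_dvd_left _ _))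
        (h2.trans (Nat.gcd_dvd_right _ _))
  · rw [Nat.factorization_eq_zero_of_not_prime _ hp]
    exact Nat.zero_le _

end LG
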