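import Pool.Agent.Helper75.LG.Grp
import Pool.Agent.Helper75.LG.Smooth
import Pool.Agent.Helper53.GDS.Mert

/-!
# Leinster groups: the orders which are not good
-/

set_option autoImplicit false

namespace LG

open Finset Pool.GDS

theorem sum_factorization {p : ℕ} (x : ℕ) :
    ∑ n ∈ Icc 1 x, n.factorization p = (x.factorial).factorization p := by
  induction x with
  | zero => simp
  | succ x ih =>
    rw [sum_Icc_succ_top (by omega), ih, Nat.factorial_succ,
      Nat.factorization_mul (by omega) (Nat.factorial_ne_zero x), Finsupp.add_apply, add_comm]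

theorem factorization_factorial_le {p : ℕ} (hp : p.Prime) (x : ℕ) :
    (((x.factorial).factorization p : ℕ) : ℝ) ≤ 2 * (x / p) := by
  have : Fact p.Prime := ⟨hp⟩
  have h1 := sub_one_mul_padicValNat_factorial (p := p) x
  rw [Nat.factorization_def _ hp]
  have h2 : (p - 1) * padicValNat p x.factorial ≤ x := by
    rw [h1]
    exact Nat.sub_le _ _
  have h3 : ((p : ℝ) - 1) * (padicValNat p x.factorial : ℝ) ≤ x := by
    have h4 : (((p - 1) * padicValNat p x.factorial : ℕ) : ℝ) ≤ x := by exact_mod_cast h2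
    rw [Nat.cast_mul, Nat.cast_sub hp.one_lt.le, Nat.cast_one] at h4
    exact h4
  have hp2 : (2 : ℝ) ≤ p := by exact_mod_cast hp.two_le
  have hv : (0 : ℝ) ≤ (padicValNat p x.factorial : ℝ) := Nat.cast_nonneg _
  rw [← mul_div_assoc, le_div_iff₀ (by linarith)]
  nlinarith

theorem sum_log_sm (z x : ℕ) (hz : 1 ≤ z) :
    ∑ n ∈ Icc 1 x, Real.log (sm z n) ≤ 2 * x * (Real.log z + Real.log 4) := by
  have hps : (range (z + 1)).filter Nat.Prime = prs z := by
    ext p
    rw [mem_ps, mem_prs, and_comm]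
  have h1 : ∀ n ∈ Icc 1 x, Real.log (sm z n) =
      ∑ p ∈ prs z, (n.factorization p : ℝ) * Real.log p := by
    intro n _
    unfold sm
    rw [hps]
    push_cast
    rw [Real.log_prod fun p hp => by
      have := (mem_prs.mp hp).1.pos
      positivity]
    exact sum_congr rfl fun p _ => Real.log_pow _ _
  rw [sum_congr rfl h1, sum_comm]
  have h2 : ∀ p ∈ prs z, ∑ n ∈ Icc 1 x, (n.factorization p : ℝ) * Real.log p ≤
      2 * x * (Real.log p / p) := by
    intro p hp
    rw [← sum_mul, ← Nat.cast_sum, sum_factorization]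
    have h3 := factorization_factorial_le (mem_prs.mp hp).1 x
    have h4 : 0 ≤ Real.log p := Real.log_natCast_nonneg p
    calc _ ≤ 2 * (x / p) * Real.log p := mul_le_mul_of_nonneg_right h3 h4
      _ = _ := by ring
  refine (sum_le_sum h2).trans ?_
  rw [← mul_sum]
  exact mul_le_mul_of_nonneg_left (mertens hz) (by positivity)

/-- few integers have a large smooth part -/
theorem card_sm_gt (x z : ℕ) (W : ℝ) (hz : 1 ≤ z) (hW : 0 < W) :
    (((Icc 1 x).filter fun n => W < (sm z n : ℝ)).card : ℝ) * Real.log W ≤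
      2 * x * (Real.log z + Real.log 4) := by
  refine le_trans ?_ (sum_log_sm z x hz)
  calc _ = ∑ n ∈ (Icc 1 x).filter (fun n => W < (sm z n : ℝ)), Real.log W := by
        rw [sum_const, nsmul_eq_mul]
    _ ≤ ∑ n ∈ (Icc 1 x).filter (fun n => W < (sm z n : ℝ)), Real.log (sm z n) := by
        refine sum_le_sum fun n hn => ?_
        rw [mem_filter] at hn
        exact Real.log_le_log hW hn.2.le
    _ ≤ _ := sum_le_sum_of_subset_of_nonneg (filter_subset _ _) fun n _ _ =>
        Real.log_natCast_nonneg _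

theorem card_dvd_le (x m : ℕ) : (((Icc 1 x).filter fun n => m ∣ n).card : ℝ) ≤ x / m := by
  have h1 : ((Icc 1 x).filter fun n => m ∣ n).card = x / m := Nat.Ioc_filter_dvd_card_eq_div x m
  rw [h1]
  exact Nat.cast_div_le

open scoped Classical in
theorem card_not_cond (x z : ℕ) (hx : 1 ≤ x) (hz : 1 ≤ z) :
    (((Icc 1 x).filter fun n => ¬ Cond n (n / sm z n)).card : ℝ) ≤ x * (2 + Real.log x) / z := by
  have hx' : (1 : ℝ) ≤ x := by exact_mod_cast hx
  have hlx : 0 ≤ Real.log x := Real.log_nonneg hx'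
  have hz' : (1 : ℝ) ≤ z := by exact_mod_cast hz
  have hsub : ((Icc 1 x).filter fun n => ¬ Cond n (n / sm z n)) ⊆
      ((Ioc z x).biUnion fun r => (Icc 1 x).filter fun n => r ^ 2 ∣ n) ∪
      ((Ioc z x).biUnion fun r => (Icc 1 x).biUnion fun k =>
        (Icc 1 x).filter fun n => k * r ^ 2 + r ∣ n) := by
    intro n hn
    rw [mem_filter] at hn
    obtain ⟨hnI, hn2⟩ := hn
    have hn3 := mem_Icc.mp hnI
    have hn0 : n ≠ 0 := by omega
    unfold Cond at hn2
    push Not at hn2
    obtain ⟨r, hr, hrb, h1⟩ := hn2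
    have hzr := lt_of_dvd_div hn0 hr hrb
    have hrn : r ∣ n := hrb.trans (Nat.div_dvd_of_dvd (sm_dvd z hn0))
    have hrx : r ≤ x := (Nat.le_of_dvd (by omega) hrn).trans hn3.2
    rw [mem_union]
    by_cases h2 : r ^ 2 ∣ n
    · left
      rw [mem_biUnion]
      exact ⟨r, mem_Ioc.mpr ⟨hzr, hrx⟩, mem_filter.mpr ⟨hnI, h2⟩⟩
    · right
      obtain ⟨d, hd, hdr, hd1⟩ := h1 h2
      have h3 := Nat.div_add_mod d r
      rw [hdr] at h3
      have hk : d / r ≠ 0 := by
        intro h4
        rw [h4] at h3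
        omega
      have hcop : Nat.Coprime r d := by
        rw [Nat.Prime.coprime_iff_not_dvd hr]
        intro h4
        rw [Nat.dvd_iff_mod_eq_zero] at h4
        omega
      have h5 : r * d ∣ n := hcop.mul_dvd_of_dvd_of_dvd hrn hd
      have h6 : d / r * r ^ 2 + r = r * d := by
        conv_rhs => rw [← h3]
        ring
      rw [mem_biUnion]
      refine ⟨r, mem_Ioc.mpr ⟨hzr, hrx⟩, ?_⟩
      rw [mem_biUnion]
      refine ⟨d / r, mem_Icc.mpr ⟨Nat.pos_of_ne_zero hk, ?_⟩, ?_⟩
      · exact (Nat.div_le_self _ _).trans ((Nat.le_of_dvd (by omega) hd).trans hn3.2)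
      · rw [mem_filter, h6]
        exact ⟨hnI, h5⟩
  have hsq : ∑ r ∈ Ioc z x, ((r : ℝ) ^ 2)⁻¹ ≤ (z : ℝ)⁻¹ := by
    rcases le_or_gt z x with h | h
    · have h1 := sum_Ioc_inv_sq_le_sub (α := ℝ) (k := z) (n := x) (by omega) h
      have h2 : (0 : ℝ) ≤ (x : ℝ)⁻¹ := by positivity
      linarith
    · rw [Ioc_eq_empty (by omega), sum_empty]
      positivity
  have hharm : ∑ k ∈ Icc 1 x, ((k : ℝ))⁻¹ ≤ 1 + Real.log x := by
    have h1 := harmonic_le_one_add_log x
    rw [harmonic_eq_sum_Icc] at h1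
    push_cast at h1
    exact h1
  have hA : ((((Ioc z x).biUnion fun r => (Icc 1 x).filter fun n => r ^ 2 ∣ n)).card : ℝ) ≤
      x * (z : ℝ)⁻¹ := by
    have h1 : ((((Ioc z x).biUnion fun r => (Icc 1 x).filter fun n => r ^ 2 ∣ n)).card : ℝ) ≤
        ∑ r ∈ Ioc z x, (((Icc 1 x).filter fun n => r ^ 2 ∣ n).card : ℝ) := by
      exact_mod_cast card_biUnion_le
    refine h1.trans ?_
    refine le_trans (sum_le_sum fun r _ => card_dvd_le x (r ^ 2)) ?_
    push_cast
    calc ∑ r ∈ Ioc z x, (x : ℝ) / (r : ℝ) ^ 2 = x * ∑ r ∈ Ioc z x, ((r : ℝ) ^ 2)⁻¹ := by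
          rw [mul_sum]
          exact sum_congr rfl fun r _ => div_eq_mul_inv _ _
      _ ≤ _ := mul_le_mul_of_nonneg_left hsq (by linarith)
  have hB : ((((Ioc z x).biUnion fun r => (Icc 1 x).biUnion fun k =>
        (Icc 1 x).filter fun n => k * r ^ 2 + r ∣ n)).card : ℝ) ≤
      x * (z : ℝ)⁻¹ * (1 + Real.log x) := by
    have h1 : ((((Ioc z x).biUnion fun r => (Icc 1 x).biUnion fun k =>
        (Icc 1 x).filter fun n => k * r ^ 2 + r ∣ n)).card : ℝ) ≤
        ∑ r ∈ Ioc z x, ∑ k ∈ Icc 1 x,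
          (((Icc 1 x).filter fun n => k * r ^ 2 + r ∣ n).card : ℝ) := by
      exact_mod_cast card_biUnion_le.trans (sum_le_sum fun r _ => card_biUnion_le)
    refine h1.trans ?_
    have h2 : ∀ r ∈ Ioc z x, ∑ k ∈ Icc 1 x,
        (((Icc 1 x).filter fun n => k * r ^ 2 + r ∣ n).card : ℝ) ≤
        x * ((r : ℝ) ^ 2)⁻¹ * (1 + Real.log x) := by
      intro r hr
      have hr0 : (0 : ℝ) < r := by
        have := (mem_Ioc.mp hr).1
        exact_mod_cast (by omega : 0 < r)
      refine le_trans (sum_le_sum fun k hk => ?_)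
        (?_ : ∑ k ∈ Icc 1 x, x * ((r : ℝ) ^ 2)⁻¹ * (k : ℝ)⁻¹ ≤ _)
      · have hk0 : (0 : ℝ) < k := by exact_mod_cast (mem_Icc.mp hk).1
        refine (card_dvd_le x (k * r ^ 2 + r)).trans ?_
        push_cast
        rw [div_eq_mul_inv, mul_assoc, ← mul_inv]
        refine mul_le_mul_of_nonneg_left ?_ (by linarith)
        refine inv_anti₀ (by positivity) ?_
        nlinarith
      · rw [← mul_sum]
        exact mul_le_mul_of_nonneg_left hharm (by positivity)
    refine (sum_le_sum h2).trans ?_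
    rw [← sum_mul, ← mul_sum]
    refine mul_le_mul_of_nonneg_right (mul_le_mul_of_nonneg_left hsq (by linarith)) (by linarith)
  have h3 : (((Icc 1 x).filter fun n => ¬ Cond n (n / sm z n)).card : ℝ) ≤
      x * (z : ℝ)⁻¹ + x * (z : ℝ)⁻¹ * (1 + Real.log x) := by
    have h4 := (card_le_card hsub).trans (card_union_le _ _)
    have h5 : (((Icc 1 x).filter fun n => ¬ Cond n (n / sm z n)).card : ℝ) ≤
        ((((Ioc z x).biUnion fun r => (Icc 1 x).filter fun n => r ^ 2 ∣ n)).card : ℝ) +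
        ((((Ioc z x).biUnion fun r => (Icc 1 x).biUnion fun k =>
          (Icc 1 x).filter fun n => k * r ^ 2 + r ∣ n)).card : ℝ) := by
      exact_mod_cast h4
    linarith
  refine h3.trans (le_of_eq ?_)
  rw [div_eq_mul_inv]
  ring

end LG
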