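import Pool.Agent.Helper53.GDS.Mert

/-!
# Leinster groups: integers with many prime factors
-/

set_option autoImplicit false

namespace LG

open Finset Pool.GDS

theorem prs_succ (n : ℕ) : prs (n + 1) = if (n + 1).Prime then insert (n + 1) (prs n) else prs n := by
  ext p
  split_ifs with h
  · rw [mem_insert, mem_prs, mem_prs]
    constructor
    · rintro ⟨h1, h2⟩
      rcases Nat.eq_or_lt_of_le h2 with h3 | h3
      · exact Or.inl h3
      · exact Or.inr ⟨h1, by omega⟩
    · rintro (h1 | ⟨h1, h2⟩)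
      · rw [h1]
        exact ⟨h, le_rfl⟩
      · exact ⟨h1, by omega⟩
  · rw [mem_prs, mem_prs]
    constructor
    · rintro ⟨h1, h2⟩
      refine ⟨h1, ?_⟩
      rcases Nat.eq_or_lt_of_le h2 with h3 | h3
      · exact absurd (h3 ▸ h1) h
      · omega
    · rintro ⟨h1, h2⟩
      exact ⟨h1, by omega⟩

theorem sum_prs_succ (n : ℕ) (f : ℕ → ℝ) :
    ∑ p ∈ prs (n + 1), f p = ∑ p ∈ prs n, f p + if (n + 1).Prime then f (n + 1) else 0 := by
  rw [prs_succ]
  split_ifs with h
  · rw [sum_insert, add_comm]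
    intro h1
    have := (mem_prs.mp h1).2
    omega
  · rw [add_zero]

/-- upper bound of Mertens for the sum of the reciprocals of the primes -/
theorem sum_recip_le {n : ℕ} (hn : 2 ≤ n) :
    ∑ p ∈ prs n, 1 / (p : ℝ) ≤ (∑ p ∈ prs n, Real.log p / p) / Real.log n +
      (Real.log (Real.log n) - Real.log (Real.log 2)) +
      Real.log 4 * (1 / Real.log 2 - 1 / Real.log n) := by
  induction n, hn using Nat.le_induction with
  | base =>
    have h1 : prs 2 = {2} := by
      ext p
      rw [mem_prs, mem_singleton]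
      constructor
      · rintro ⟨h1, h2⟩
        exact le_antisymm h2 h1.two_le
      · rintro rfl
        exact ⟨Nat.prime_two, le_rfl⟩
    rw [h1]
    have h2 : 0 < Real.log 2 := Real.log_pos (by norm_num)
    simp only [sum_singleton, Nat.cast_ofNat, sub_self, mul_zero, add_zero]
    rw [div_div, mul_comm, ← div_div, div_self h2.ne']
  | succ n hn ih =>
    have hn' : (2 : ℝ) ≤ n := by exact_mod_cast hn
    have hl0 : 0 < Real.log n := Real.log_pos (by linarith)
    have hl1 : Real.log n ≤ Real.log ((n : ℝ) + 1) := Real.log_le_log (by linarith) (by linarith)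
    have hl2 : 0 < Real.log ((n : ℝ) + 1) := lt_of_lt_of_le hl0 hl1
    have hm := mertens (n := n) (by omega)
    rw [sum_prs_succ, sum_prs_succ]
    push_cast
    set A := ∑ p ∈ prs n, Real.log p / p with hA
    set F := ∑ p ∈ prs n, 1 / (p : ℝ) with hF
    have h1 : (A + if (n + 1).Prime then Real.log ((n : ℝ) + 1) / ((n : ℝ) + 1) else 0) /
        Real.log ((n : ℝ) + 1) = A / Real.log ((n : ℝ) + 1) +
        if (n + 1).Prime then 1 / ((n : ℝ) + 1) else 0 := by
      split_ifs
      · have : (n : ℝ) + 1 ≠ 0 := by linarith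
        field_simp
      · simp
    rw [h1]
    have h2 : A / Real.log n - A / Real.log ((n : ℝ) + 1) ≤
        (Real.log (Real.log ((n : ℝ) + 1)) - Real.log (Real.log n)) +
        Real.log 4 * (1 / Real.log n - 1 / Real.log ((n : ℝ) + 1)) := by
      have h3 : 0 ≤ 1 / Real.log n - 1 / Real.log ((n : ℝ) + 1) := by
        rw [sub_nonneg]
        exact one_div_le_one_div_of_le hl0 hl1
      have h4 : A / Real.log n - A / Real.log ((n : ℝ) + 1) =
          A * (1 / Real.log n - 1 / Real.log ((n : ℝ) + 1)) := by ring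
      have h5 := mul_le_mul_of_nonneg_right hm h3
      have h6 : Real.log n * (1 / Real.log n - 1 / Real.log ((n : ℝ) + 1)) =
          1 - Real.log n / Real.log ((n : ℝ) + 1) := by
        field_simp
      have h7 : 1 - Real.log n / Real.log ((n : ℝ) + 1) ≤
          Real.log (Real.log ((n : ℝ) + 1)) - Real.log (Real.log n) := by
        have h8 := Real.log_le_sub_one_of_pos (div_pos hl0 hl2)
        rw [Real.log_div hl0.ne' hl2.ne'] at h8
        linarith
      rw [h4]
      refine h5.trans ?_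
      rw [add_mul, h6]
      linarith
    linarith

theorem sum_recip_loglog : ∃ C : ℝ, ∀ n : ℕ, 2 ≤ n →
    ∑ p ∈ prs n, 1 / (p : ℝ) ≤ Real.log (Real.log n) + C := by
  refine ⟨1 + Real.log 4 / Real.log 2 - Real.log (Real.log 2), fun n hn => ?_⟩
  have hn' : (2 : ℝ) ≤ n := by exact_mod_cast hn
  have hl0 : 0 < Real.log n := Real.log_pos (by linarith)
  have h1 := sum_recip_le hn
  have hm := mertens (n := n) (by omega)
  have h2 : (∑ p ∈ prs n, Real.log p / p) / Real.log n ≤ 1 + Real.log 4 / Real.log n := by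
    rw [div_le_iff₀ hl0, add_mul, div_mul_cancel₀ _ hl0.ne', one_mul]
    exact hm
  have h3 : Real.log 4 * (1 / Real.log 2 - 1 / Real.log n) =
      Real.log 4 / Real.log 2 - Real.log 4 / Real.log n := by ring
  linarith

/-- the average of `(1 + c) ^ ω(n)` -/
theorem sum_pow_omega {c : ℝ} (hc : 0 ≤ c) (x : ℕ) :
    ∑ n ∈ Icc 1 x, (1 + c) ^ n.primeFactors.card ≤ x * ∏ p ∈ prs x, (1 + c / (p : ℝ)) := by
  have h1 : ∀ n ∈ Icc 1 x, (1 + c) ^ n.primeFactors.card =
      ∑ t ∈ (prs x).powerset, if t ⊆ n.primeFactors then c ^ t.card else 0 := by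
    intro n hn
    rw [mem_Icc] at hn
    have h2 : n.primeFactors ⊆ prs x := by
      intro p hp
      rw [mem_prs]
      exact ⟨Nat.prime_of_mem_primeFactors hp, (Nat.le_of_mem_primeFactors hp).trans hn.2⟩
    have h3 : (prs x).powerset.filter (fun t => t ⊆ n.primeFactors) = n.primeFactors.powerset := by
      ext t
      rw [mem_filter, mem_powerset, mem_powerset]
      exact ⟨fun h => h.2, fun h => ⟨h.trans h2, h⟩⟩
    rw [← sum_filter, h3, ← prod_const, prod_one_add]
    exact sum_congr rfl fun t _ => prod_const _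
  rw [sum_congr rfl h1, sum_comm, prod_one_add, mul_sum]
  refine sum_le_sum fun t ht => ?_
  rw [mem_powerset] at ht
  have hprime : ∀ p ∈ t, p.Prime := fun p hp => (mem_prs.mp (ht hp)).1
  have hpos : 0 < ∏ p ∈ t, p := prod_pos fun p hp => (hprime p hp).pos
  rw [← sum_filter, sum_const, nsmul_eq_mul]
  have h4 : ((Icc 1 x).filter fun n => t ⊆ n.primeFactors).card ≤ x / ∏ p ∈ t, p := by
    have h5 : ((Icc 1 x).filter fun n => t ⊆ n.primeFactors) ⊆
        (Icc 1 x).filter fun n => (∏ p ∈ t, p) ∣ n := by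
      intro n hn
      rw [mem_filter] at hn ⊢
      refine ⟨hn.1, ?_⟩
      exact (prod_dvd_prod_of_subset _ _ _ hn.2).trans (Nat.prod_primeFactors_dvd n)
    refine (card_le_card h5).trans (le_of_eq ?_)
    exact Nat.Ioc_filter_dvd_card_eq_div x (∏ p ∈ t, p)
  have h10 : (((Icc 1 x).filter fun n => t ⊆ n.primeFactors).card : ℝ) ≤
      x / ∏ p ∈ t, (p : ℝ) := by
    have h11 : (((Icc 1 x).filter fun n => t ⊆ n.primeFactors).card : ℝ) ≤
        ((x / ∏ p ∈ t, p : ℕ) : ℝ) := by exact_mod_cast h4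
    refine h11.trans (Nat.cast_div_le.trans ?_)
    push_cast
    exact le_rfl
  calc _ ≤ x / (∏ p ∈ t, (p : ℝ)) * c ^ t.card :=
        mul_le_mul_of_nonneg_right h10 (pow_nonneg hc _)
    _ = _ := by
        rw [prod_div_distrib, prod_const]
        ring

theorem prod_le_log {c : ℝ} (hc : 0 ≤ c) : ∃ C : ℝ, 0 < C ∧ ∀ x : ℕ, 2 ≤ x →
    ∏ p ∈ prs x, (1 + c / (p : ℝ)) ≤ C * (Real.log x) ^ c := by
  obtain ⟨C, h⟩ := sum_recip_loglog
  refine ⟨Real.exp (c * C), Real.exp_pos _, fun x hx => ?_⟩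
  have hx' : (2 : ℝ) ≤ x := by exact_mod_cast hx
  have hl0 : 0 < Real.log x := Real.log_pos (by linarith)
  have h1 : ∏ p ∈ prs x, (1 + c / (p : ℝ)) ≤ Real.exp (∑ p ∈ prs x, c / (p : ℝ)) := by
    rw [Real.exp_sum]
    refine prod_le_prod (fun p _ => by positivity) fun p _ => ?_
    rw [add_comm]
    exact Real.add_one_le_exp _
  have h2 : ∑ p ∈ prs x, c / (p : ℝ) = c * ∑ p ∈ prs x, 1 / (p : ℝ) := by
    rw [mul_sum]
    exact sum_congr rfl fun p _ => by ring
  refine h1.trans ?_
  rw [h2, Real.rpow_def_of_pos hl0, ← Real.exp_add, Real.exp_le_exp]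
  have := mul_le_mul_of_nonneg_left (h x hx) hc
  linarith

/-- few integers have many prime factors -/
theorem card_omega : ∃ C : ℝ, 0 < C ∧ ∀ (x : ℕ) (T : ℝ), 2 ≤ x → 0 < T →
    (((Icc 1 x).filter fun n => T < 2 ^ n.primeFactors.card).card : ℝ) ≤
      C * x * (Real.log x) ^ (Real.sqrt 2 - 1) / Real.sqrt T := by
  have hc : 0 ≤ Real.sqrt 2 - 1 := by
    have : (1 : ℝ) ≤ Real.sqrt 2 := by
      rw [Real.one_le_sqrt]
      norm_num
    linarith
  obtain ⟨C, hC, h⟩ := prod_le_log hc
  refine ⟨C, hC, fun x T hx hT => ?_⟩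
  have hsT : 0 < Real.sqrt T := Real.sqrt_pos.mpr hT
  rw [le_div_iff₀ hsT]
  have h1 := sum_pow_omega hc x
  have h2 : (((Icc 1 x).filter fun n => T < 2 ^ n.primeFactors.card).card : ℝ) * Real.sqrt T ≤
      ∑ n ∈ Icc 1 x, (1 + (Real.sqrt 2 - 1)) ^ n.primeFactors.card := by
    calc _ = ∑ n ∈ (Icc 1 x).filter (fun n => T < 2 ^ n.primeFactors.card), Real.sqrt T := by
          rw [sum_const, nsmul_eq_mul]
      _ ≤ ∑ n ∈ (Icc 1 x).filter (fun n => T < 2 ^ n.primeFactors.card),
            (1 + (Real.sqrt 2 - 1)) ^ n.primeFactors.card := by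
          refine sum_le_sum fun n hn => ?_
          rw [mem_filter] at hn
          have h3 : (1 + (Real.sqrt 2 - 1)) ^ n.primeFactors.card =
              Real.sqrt (2 ^ n.primeFactors.card) := by
            rw [add_sub_cancel, Real.sqrt_eq_rpow, Real.sqrt_eq_rpow, ← Real.rpow_natCast,
              ← Real.rpow_natCast, ← Real.rpow_mul (by norm_num), ← Real.rpow_mul (by norm_num),
              mul_comm]
          rw [h3]
          exact Real.sqrt_le_sqrt hn.2.le
      _ ≤ _ := by
          refine sum_le_sum_of_subset_of_nonneg (filter_subset _ _) fun n _ _ => ?_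
          have : 0 ≤ 1 + (Real.sqrt 2 - 1) := by linarith
          positivity
  refine h2.trans (h1.trans ?_)
  have h4 := mul_le_mul_of_nonneg_left (h x hx) (Nat.cast_nonneg (α := ℝ) x)
  linarith

end LG
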