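import Pool.Agent.Helper75.LG.Main
import Pool.Agent.Helper75.LG.Num
import Pool.Agent.Helper75.LG.Om

/-!
# Leinster groups: the final count
-/

set_option autoImplicit false

namespace LG

open Finset Pool.GDS

theorem squarefree_of_cond {n b : ℕ} (hbn : b ∣ n) (hc : Cond n b) : Squarefree b := by
  rw [Nat.squarefree_iff_prime_squarefree]
  intro p hp h
  exact (hc p hp ((dvd_mul_right p p).trans h)).1 ((pow_two p ▸ h).trans hbn)

theorem card_divisors_le {n b : ℕ} (hn : n ≠ 0) (hbn : b ∣ n) (hc : Cond n b) :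
    b.divisors.card ≤ 2 ^ n.primeFactors.card := by
  have hsq := squarefree_of_cond hbn hc
  have hb0 : b ≠ 0 := hsq.ne_zero
  have h1 : b.divisors.card = 2 ^ b.primeFactors.card := by
    rw [Nat.card_divisors hb0]
    have h2 : ∀ p ∈ b.primeFactors, b.factorization p + 1 = 2 := by
      intro p hp
      have h3 := Nat.factorization_eq_one_of_squarefree hsq
        (Nat.prime_of_mem_primeFactors hp) (Nat.dvd_of_mem_primeFactors hp)
      rw [h3]
    rw [prod_congr rfl h2, prod_const]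
  rw [h1]
  exact Nat.pow_le_pow_right (by norm_num) (card_le_card (Nat.primeFactors_mono hbn hn))

open scoped Classical in
/-- the exceptional orders -/
noncomputable def Exc (x : ℕ) (W : ℝ) : Finset ℕ :=
  (Icc 1 x).filter fun n => ∃ (G : Type) (_ : Group G) (_ : Fintype G), Fintype.card G = n ∧
    W < (Nat.gcd n (∑ H : {H : Subgroup G // H.Normal}, Nat.card H) : ℝ)

open scoped Classical in
theorem exc_subset {x y z Z T : ℕ} {W : ℝ} :
    Exc x W ⊆ ((Icc 1 x).filter fun n => W < (sm y n : ℝ)) ∪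
      (((Icc 1 x).filter fun n => Z < sm z n) ∪
      (((Icc 1 x).filter fun n => ¬ Cond n (n / sm z n)) ∪
      (((Icc 1 x).filter fun n => T < 2 ^ n.primeFactors.card) ∪
      ((Icc 1 x).filter fun n => Good z Z T n ∧ ∃ q, q.Prime ∧ y < q ∧ q ∣ n ∧ Hit n q)))) := by
  intro n hn
  unfold Exc at hn
  rw [mem_filter] at hn
  obtain ⟨hnI, G, hG, hF, hcard, hW⟩ := hn
  have hn0 : n ≠ 0 := by
    have := (mem_Icc.mp hnI).1
    omega
  rw [mem_union, mem_union, mem_union, mem_union, mem_filter, mem_filter, mem_filter, mem_filter,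
    mem_filter]
  by_cases h1 : W < (sm y n : ℝ)
  · exact Or.inl ⟨hnI, h1⟩
  right
  by_cases h2 : Z < sm z n
  · exact Or.inl ⟨hnI, h2⟩
  right
  by_cases h3 : Cond n (n / sm z n)
  swap
  · exact Or.inl ⟨hnI, h3⟩
  right
  by_cases h4 : T < 2 ^ n.primeFactors.card
  · exact Or.inl ⟨hnI, h4⟩
  right
  refine ⟨hnI, ⟨h3, not_lt.mp h2, ?_⟩, ?_⟩
  · exact (card_divisors_le hn0 (Nat.div_dvd_of_dvd (sm_dvd z hn0)) h3).trans (not_lt.mp h4)
  · by_contra hcon
    push Not at hcon
    have h5 : Nat.gcd n (∑ H : {H : Subgroup G // H.Normal}, Nat.card H) ∣ sm y n := by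
      refine gcd_dvd_sm hn0 fun q hq hyq hqn hqs => ?_
      exact hcon q hq hyq hqn ⟨G, hG, hF, hcard, hqs⟩
    have h6 : ((Nat.gcd n (∑ H : {H : Subgroup G // H.Normal}, Nat.card H) : ℕ) : ℝ) ≤ sm y n := by
      exact_mod_cast Nat.le_of_dvd (sm_pos y n) h5
    linarith

/-- the bound with parameters -/
theorem card_exc : ∃ C : ℝ, 0 < C ∧ ∀ (x y z Z T : ℕ) (W W' T' : ℝ), 2 ≤ x → 1 ≤ z → z ≤ y →
    1 < W → 1 < W' → 0 < T' → (Z : ℕ) = ⌊W'⌋₊ → T = ⌊T'⌋₊ →
    ((Exc x W).card : ℝ) ≤ 2 * x * (Real.log y + Real.log 4) / Real.log W +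
      2 * x * (Real.log z + Real.log 4) / Real.log W' + x * (2 + Real.log x) / z +
      C * x * (Real.log x) ^ (Real.sqrt 2 - 1) / Real.sqrt T' +
      (x / ((y : ℝ) + 1)) * (((KK Z : ℝ) + 1) ^ T * (Nat.log 2 (KK Z * x ^ 2) : ℝ)) := by
  classical
  obtain ⟨C, hC, h4⟩ := card_omega
  refine ⟨C, hC, fun x y z Z T W W' T' hx hz hzy hW hW' hT' hZ hT => ?_⟩
  have h0 := card_le_card (exc_subset (x := x) (y := y) (z := z) (Z := Z) (T := T) (W := W))
  have h0' := h0.trans ((card_union_le _ _).trans (Nat.add_le_add_left ((card_union_le _ _).trans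
    (Nat.add_le_add_left ((card_union_le _ _).trans
      (Nat.add_le_add_left (card_union_le _ _) _)) _)) _))
  have hr : ((Exc x W).card : ℝ) ≤ (((Icc 1 x).filter fun n => W < (sm y n : ℝ)).card : ℝ) +
      ((((Icc 1 x).filter fun n => Z < sm z n).card : ℝ) +
      ((((Icc 1 x).filter fun n => ¬ Cond n (n / sm z n)).card : ℝ) +
      ((((Icc 1 x).filter fun n => T < 2 ^ n.primeFactors.card).card : ℝ) +
      (((Icc 1 x).filter fun n => Good z Z T n ∧
        ∃ q, q.Prime ∧ y < q ∧ q ∣ n ∧ Hit n q).card : ℝ)))) := by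
    exact_mod_cast h0'
  have e1 : (((Icc 1 x).filter fun n => W < (sm y n : ℝ)).card : ℝ) ≤
      2 * x * (Real.log y + Real.log 4) / Real.log W := by
    rw [le_div_iff₀ (Real.log_pos hW)]
    exact card_sm_gt x y W (hz.trans hzy) (by linarith)
  have e2 : (((Icc 1 x).filter fun n => Z < sm z n).card : ℝ) ≤
      2 * x * (Real.log z + Real.log 4) / Real.log W' := by
    rw [le_div_iff₀ (Real.log_pos hW')]
    have h5 : ((Icc 1 x).filter fun n => Z < sm z n) =
        (Icc 1 x).filter fun n => W' < (sm z n : ℝ) := by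
      refine filter_congr fun n _ => ?_
      rw [hZ, Nat.floor_lt (by linarith)]
    rw [h5]
    exact card_sm_gt x z W' hz (by linarith)
  have e3 := card_not_cond x z (by omega) hz
  have e4 : (((Icc 1 x).filter fun n => T < 2 ^ n.primeFactors.card).card : ℝ) ≤
      C * x * (Real.log x) ^ (Real.sqrt 2 - 1) / Real.sqrt T' := by
    have h5 : ((Icc 1 x).filter fun n => T < 2 ^ n.primeFactors.card) =
        (Icc 1 x).filter fun n => T' < (2 : ℝ) ^ n.primeFactors.card := by
      refine filter_congr fun n _ => ?_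
      rw [hT, Nat.floor_lt hT'.le]
      push_cast
      exact Iff.rfl
    rw [h5]
    exact h4 x T' hx hT'
  have e5 : (((Icc 1 x).filter fun n => Good z Z T n ∧
        ∃ q, q.Prime ∧ y < q ∧ q ∣ n ∧ Hit n q).card : ℝ) ≤
      (x / ((y : ℝ) + 1)) * (((KK Z : ℝ) + 1) ^ T * (Nat.log 2 (KK Z * x ^ 2) : ℝ)) := by
    have h5 := main_count x y z Z T hzy
    have h6 : (((Icc 1 x).filter fun n => Good z Z T n ∧
        ∃ q, q.Prime ∧ y < q ∧ q ∣ n ∧ Hit n q).card : ℝ) ≤
        ((x / (y + 1) : ℕ) : ℝ) * (((KK Z : ℝ) + 1) ^ T * (Nat.log 2 (KK Z * x ^ 2) : ℝ)) := by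
      exact_mod_cast h5
    refine h6.trans (mul_le_mul_of_nonneg_right ?_ (by positivity))
    have h7 := Nat.cast_div_le (α := ℝ) (m := x) (n := y + 1)
    push_cast at h7
    exact h7
  linarith

end LG
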