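import Pool.Agent.Helper75.LG.Asym

/-!
# Leinster groups: the theorem on the greatest common divisor
-/

set_option autoImplicit false

namespace LG

open Finset Pool.GDS

theorem card_exc_le (x : ℕ) (W : ℝ) : (Exc x W).card ≤ x := by
  classical
  unfold Exc
  refine (card_filter_le _ _).trans ?_
  rw [Nat.card_Icc, Nat.add_sub_cancel]

/-- For all but `O(x / (log x) ^ (1 / 40))` of the integers `n ≤ x` every group `G` of order `n`
has `gcd (|G|, σ(G)) ≤ exp ((log x) ^ (39 / 40))`. -/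
theorem final : ∃ C : ℝ, ∀ x : ℕ, 2 ≤ x →
    ((Exc x (Real.exp ((Real.log x) ^ (39 / 40 : ℝ)))).card : ℝ) ≤
      C * x / (Real.log x) ^ (1 / 40 : ℝ) := by
  obtain ⟨C, hC, h⟩ := card_exc
  refine ⟨(6 + 4006 + 3 + C + 480) + ((8 : ℝ) ^ 125) ^ (1 / 40 : ℝ), fun x hx => ?_⟩
  have hx' : (2 : ℝ) ≤ x := by exact_mod_cast hx
  have hx0 : (0 : ℝ) < x := by linarith
  set L := Real.log x with hLdef
  have hLpos : 0 < L := Real.log_pos (by linarith)
  have hLr : 0 < L ^ (1 / 40 : ℝ) := by positivity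
  rcases lt_or_ge L (8 ^ 125) with hsmall | hL
  · have h1 : ((Exc x (Real.exp (L ^ (39 / 40 : ℝ)))).card : ℝ) ≤ x := by
      exact_mod_cast card_exc_le x _
    refine h1.trans ?_
    rw [le_div_iff₀ hLr]
    have h2 : L ^ (1 / 40 : ℝ) ≤ ((8 : ℝ) ^ 125) ^ (1 / 40 : ℝ) :=
      Real.rpow_le_rpow hLpos.le hsmall.le (by norm_num)
    have h3 : 0 ≤ (6 + 4006 + 3 + C + 480) * x := by positivity
    calc x * L ^ (1 / 40 : ℝ) ≤ x * ((8 : ℝ) ^ 125) ^ (1 / 40 : ℝ) :=
          mul_le_mul_of_nonneg_left h2 hx0.le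
      _ ≤ _ := by
          rw [add_mul]
          linarith
  · have hL1 : 1 ≤ L := le_trans (by norm_num) hL
    have hexp1 : 1 < Real.exp (L ^ (39 / 40 : ℝ)) := Real.one_lt_exp_iff.mpr (by positivity)
    have hexp2 : 1 < Real.exp (L ^ (13 / 500 : ℝ)) := Real.one_lt_exp_iff.mpr (by positivity)
    set y := ⌊Real.exp (L ^ (19 / 20 : ℝ))⌋₊ with hy
    set z := ⌈L ^ 2⌉₊ with hz
    set Z := ⌊Real.exp (L ^ (13 / 500 : ℝ))⌋₊ with hZ
    set T := ⌊L ^ (89 / 100 : ℝ)⌋₊ with hT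
    have hz1 : 1 ≤ z := Nat.one_le_ceil_iff.mpr (by positivity)
    have hzc : (z : ℝ) ≤ L ^ 2 + 1 := (Nat.ceil_lt_add_one (by positivity)).le
    have hzy : z ≤ y := by
      rw [hy, Nat.le_floor_iff (Real.exp_pos _).le]
      refine hzc.trans ?_
      have h1 := Real.pow_div_factorial_le_exp (L ^ (19 / 20 : ℝ)) (by positivity) 3
      refine le_trans ?_ h1
      have h2 : (Nat.factorial 3 : ℝ) = 6 := by norm_num [Nat.factorial]
      have h3 : (L ^ (19 / 20 : ℝ)) ^ 3 = L ^ (17 / 20 : ℝ) * L ^ 2 := by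
        rw [← Real.rpow_natCast, ← Real.rpow_mul hLpos.le, ← Real.rpow_natCast,
          ← Real.rpow_add hLpos]
        norm_num
      have h4 : (12 : ℝ) ≤ L ^ (17 / 20 : ℝ) := by
        calc (12 : ℝ) ≤ 64 := by norm_num
          _ = ((2 : ℝ) ^ (6 : ℝ)) := by norm_num
          _ ≤ (2 : ℝ) ^ ((375 : ℝ) * (17 / 20)) :=
              Real.rpow_le_rpow_of_exponent_le (by norm_num) (by norm_num)
          _ = ((2 : ℝ) ^ (375 : ℝ)) ^ (17 / 20 : ℝ) := Real.rpow_mul (by norm_num) _ _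
          _ ≤ L ^ (17 / 20 : ℝ) := by
              refine Real.rpow_le_rpow (by positivity) ?_ (by norm_num)
              refine le_trans (le_of_eq ?_) hL
              have h5 : (375 : ℝ) = ((375 : ℕ) : ℝ) := by norm_num
              rw [h5, Real.rpow_natCast, show (375 : ℕ) = 3 * 125 from rfl, pow_mul]
              norm_num
      rw [h2, h3, le_div_iff₀ (by norm_num)]
      nlinarith [sq_nonneg L]
    have hfl : Real.exp (L ^ (19 / 20 : ℝ)) ≤ (y : ℝ) + 1 := (Nat.lt_floor_add_one _).le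
    have hfl2 : (y : ℝ) ≤ Real.exp (L ^ (19 / 20 : ℝ)) := Nat.floor_le (Real.exp_pos _).le
    have hy1 : (0 : ℝ) < y := by
      have : 1 ≤ y := hz1.trans hzy
      exact_mod_cast this
    have hz0 : (0 : ℝ) < z := by exact_mod_cast hz1
    have hZ1 : 1 ≤ Z := by
      rw [hZ, Nat.le_floor_iff (Real.exp_pos _).le]
      push_cast
      exact hexp2.le
    have hmain := h x y z Z T (Real.exp (L ^ (39 / 40 : ℝ))) (Real.exp (L ^ (13 / 500 : ℝ)))
      (L ^ (89 / 100 : ℝ)) hx hz1 hzy hexp1 hexp2 (by positivity) hZ hT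
    rw [Real.log_exp, Real.log_exp] at hmain
    have t1 := term1 hL1 hx0.le (ly := Real.log y) (by
      rw [Real.log_le_iff_le_exp hy1]
      exact hfl2)
    have t2 := term2 hL1 hx0.le (lz := Real.log z) (Real.log_le_log hz0 hzc)
    have t3 := term3 hL1 hx0.le (z := (z : ℝ)) (Nat.le_ceil _)
    have t4 := term4 hL1 hx0.le hC.le
    have t5 := term5 hL (by omega : 1 ≤ x) hLdef.symm hfl hZ1
      (Nat.floor_le (Real.exp_pos _).le) (Nat.floor_le (by positivity)) (T := T)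
    refine hmain.trans ?_
    have hsum : (6 + 4006 + 3 + C + 480) * x / L ^ (1 / 40 : ℝ) =
        6 * x / L ^ (1 / 40 : ℝ) + 4006 * x / L ^ (1 / 40 : ℝ) + 3 * x / L ^ (1 / 40 : ℝ) +
        C * x / L ^ (1 / 40 : ℝ) + 480 * x / L ^ (1 / 40 : ℝ) := by ring
    have hfin : (6 + 4006 + 3 + C + 480) * x / L ^ (1 / 40 : ℝ) ≤
        ((6 + 4006 + 3 + C + 480) + ((8 : ℝ) ^ 125) ^ (1 / 40 : ℝ)) * x / L ^ (1 / 40 : ℝ) := by
      refine div_le_div_of_nonneg_right ?_ hLr.le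
      refine mul_le_mul_of_nonneg_right ?_ hx0.le
      have : 0 ≤ ((8 : ℝ) ^ 125) ^ (1 / 40 : ℝ) := by positivity
      linarith
    linarith

end LG
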