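import Pool.Agent.Helper75.LG.Val
import Pool.Agent.Helper75.LG.Cnt
import Pool.Agent.Helper75.LG.Smooth

/-!
# Leinster groups: counting the exceptional orders
-/

set_option autoImplicit false

namespace LG

open Finset

/-- the bound for the values -/
def KK (Z : ℕ) : ℕ := Z * Z ^ Nat.log 2 Z

theorem KK_mono {a Z : ℕ} (ha : a ≠ 0) (h : a ≤ Z) : a * a ^ Nat.log 2 a ≤ KK Z := by
  unfold KK
  refine Nat.mul_le_mul h ?_
  calc a ^ Nat.log 2 a ≤ a ^ Nat.log 2 Z :=
        Nat.pow_le_pow_right (Nat.pos_of_ne_zero ha) (Nat.log_mono_right h)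
    _ ≤ Z ^ Nat.log 2 Z := Nat.pow_le_pow_left h _

open scoped Classical in
/-- `q` divides the sum of the orders of the normal subgroups of some group of order `n` -/
def Hit (n q : ℕ) : Prop :=
  ∃ (G : Type) (_ : Group G) (_ : Fintype G), Fintype.card G = n ∧
    q ∣ ∑ H : {H : Subgroup G // H.Normal}, Nat.card H

/-- the good orders -/
def Good (z Z T n : ℕ) : Prop :=
  Cond n (n / sm z n) ∧ sm z n ≤ Z ∧ (n / sm z n).divisors.card ≤ T

theorem mem_badF {z Z T n q m : ℕ} (hn : n ≠ 0) (hg : Good z Z T n) (hq : q.Prime) (hzq : z < q)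
    (hnq : n = q * m) (hh : Hit n q) : q ∈ BadF (KK Z) (m / sm z m) := by
  obtain ⟨hc, hZ, -⟩ := hg
  have hm : m ≠ 0 := by
    rintro rfl
    exact hn (by rw [hnq, mul_zero])
  have hsm : sm z n = sm z m := by rw [hnq, sm_mul_prime hq hzq hm]
  have hb : n / sm z n = q * (m / sm z m) := by
    rw [hsm, hnq, Nat.mul_div_assoc _ (sm_dvd z hm)]
  obtain ⟨G, hG, hF, hcard, hdvd⟩ := hh
  have hcard' : Nat.card G = n := by rw [Nat.card_eq_fintype_card, hcard]
  have hab : Nat.card G = sm z n * (n / sm z n) := by rw [hcard', sm_mul_div z hn]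
  have hc' : Cond (Nat.card G) (n / sm z n) := by rw [hcard']; exact hc
  obtain ⟨v, hv, hv1, hqv⟩ := dvd_of_dvd_sum hab (coprime_sm z hn) hc' hq hb hdvd
  apply bad_subset (div_sm_ne_zero z hm)
  exact ⟨hq, v, fun d => (hv d).trans (KK_mono (sm_pos z n).ne' hZ), hv1, hqv⟩

open scoped Classical in
theorem main_count (x y z Z T : ℕ) (hzy : z ≤ y) :
    ((Icc 1 x).filter fun n => Good z Z T n ∧ ∃ q, q.Prime ∧ y < q ∧ q ∣ n ∧ Hit n q).card ≤
      (x / (y + 1)) * ((KK Z + 1) ^ T * Nat.log 2 (KK Z * x ^ 2)) := by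
  set S := ((Icc 1 (x / (y + 1))).filter fun m => (m / sm z m).divisors.card ≤ T) with hS
  have hsub : ((Icc 1 x).filter fun n => Good z Z T n ∧ ∃ q, q.Prime ∧ y < q ∧ q ∣ n ∧ Hit n q) ⊆
      (S.biUnion fun m => (BadF (KK Z) (m / sm z m)).image fun q => q * m) := by
    intro n hn
    rw [mem_filter, mem_Icc] at hn
    obtain ⟨⟨hn1, hnx⟩, hg, q, hq, hyq, ⟨m, hm⟩, hh⟩ := hn
    have hn0 : n ≠ 0 := by omega
    have hm0 : m ≠ 0 := by
      rintro rfl
      exact hn0 (by rw [hm, mul_zero])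
    have hmem := mem_badF hn0 hg hq (lt_of_le_of_lt hzy hyq) hm hh
    rw [mem_biUnion]
    refine ⟨m, ?_, ?_⟩
    · rw [hS, mem_filter, mem_Icc]
      refine ⟨⟨Nat.pos_of_ne_zero hm0, ?_⟩, ?_⟩
      · rw [Nat.le_div_iff_mul_le (Nat.succ_pos y)]
        calc m * (y + 1) ≤ m * q := Nat.mul_le_mul_left _ hyq
          _ = n := by rw [hm, mul_comm]
          _ ≤ x := hnx
      · refine le_trans ?_ hg.2.2
        have hb : n / sm z n = q * (m / sm z m) := by
          rw [hm, sm_mul_prime hq (lt_of_le_of_lt hzy hyq) hm0, Nat.mul_div_assoc _ (sm_dvd z hm0)]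
        refine card_le_card (Nat.divisors_subset_of_dvd (div_sm_ne_zero z hn0) ?_)
        rw [hb]
        exact dvd_mul_left _ _
    · rw [mem_image]
      exact ⟨q, hmem, hm.symm⟩
  refine (card_le_card hsub).trans (card_biUnion_le.trans ?_)
  have h1 : ∀ m ∈ S, ((BadF (KK Z) (m / sm z m)).image fun q => q * m).card ≤
      (KK Z + 1) ^ T * Nat.log 2 (KK Z * x ^ 2) := by
    intro m hm
    rw [hS, mem_filter, mem_Icc] at hm
    refine card_image_le.trans (card_badF.trans ?_)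
    refine Nat.mul_le_mul (Nat.pow_le_pow_right (Nat.succ_pos _) hm.2) (Nat.log_mono_right ?_)
    refine Nat.mul_le_mul_left _ (Nat.pow_le_pow_left ?_ 2)
    exact (Nat.div_le_self _ _).trans (hm.1.2.trans (Nat.div_le_self _ _))
  refine (sum_le_card_nsmul _ _ _ h1).trans ?_
  rw [smul_eq_mul]
  refine Nat.mul_le_mul_right _ ?_
  refine (card_filter_le _ _).trans ?_
  rw [Nat.card_Icc, Nat.add_sub_cancel]

end LG
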