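import Pool.Agent.Helper75.LG.Grp

/-!
# Leinster groups: the sum of the orders of the normal subgroups modulo a prime
-/

set_option autoImplicit false

namespace LG

open Finset

open scoped Classical in
/-- the part of the sum of the orders of the normal subgroups outside `b` -/
noncomputable def vv (G : Type) [Group G] [Fintype G] (a b d : ℕ) : ℕ :=
  ∑ N ∈ (univ : Finset {H : Subgroup G // H.Normal}) with Nat.gcd (Nat.card N.1) b = d,
    Nat.gcd (Nat.card N.1) a

open scoped Classical in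
theorem vv_le {G : Type} [Group G] [Fintype G] {a b : ℕ} (hab : Nat.card G = a * b)
    (hc : Cond (Nat.card G) b) (d : ℕ) : vv G a b d ≤ a * a ^ Nat.log 2 a := by
  have hn0 : Nat.card G ≠ 0 := Nat.card_pos.ne'
  have ha0 : a ≠ 0 := by
    rintro rfl
    exact hn0 (by rw [hab, zero_mul])
  unfold vv
  refine (sum_le_card_nsmul _ _ a fun N _ => Nat.gcd_le_right _ (Nat.pos_of_ne_zero ha0)).trans ?_
  rw [smul_eq_mul, mul_comm]
  refine Nat.mul_le_mul_left _ ?_
  refine le_trans ?_ (card_fibre hab hc d)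
  rw [← Fintype.card_subtype, ← Nat.card_eq_fintype_card]
  refine Nat.card_le_card_of_injective (fun N => ⟨N.1.1, N.1.2, N.2⟩) ?_
  intro N N' h
  rw [Subtype.mk.injEq] at h
  exact Subtype.ext (Subtype.ext h)

open scoped Classical in
theorem one_le_vv {G : Type} [Group G] [Fintype G] {a b : ℕ} (_ha : a ≠ 0) : 1 ≤ vv G a b 1 := by
  unfold vv
  have h1 : (⟨⊥, inferInstance⟩ : {H : Subgroup G // H.Normal}) ∈
      ((univ : Finset {H : Subgroup G // H.Normal}).filter
        fun N => Nat.gcd (Nat.card N.1) b = 1) := by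
    rw [mem_filter]
    exact ⟨mem_univ _, by simp⟩
  refine le_trans ?_ (single_le_sum (f := fun N : {H : Subgroup G // H.Normal} =>
    Nat.gcd (Nat.card N.1) a) (fun _ _ => Nat.zero_le _) h1)
  simp

open scoped Classical in
theorem sum_eq {G : Type} [Group G] [Fintype G] {a b : ℕ} (hab : Nat.card G = a * b)
    (hcop : Nat.Coprime a b) :
    ∑ H : {H : Subgroup G // H.Normal}, Nat.card H = ∑ d ∈ b.divisors, d * vv G a b d := by
  have hn0 : Nat.card G ≠ 0 := Nat.card_pos.ne'
  have hb0 : b ≠ 0 := by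
    rintro rfl
    exact hn0 (by rw [hab, mul_zero])
  rw [← sum_fiberwise_of_maps_to (s := (univ : Finset {H : Subgroup G // H.Normal}))
    (t := b.divisors) (g := fun N => Nat.gcd (Nat.card N.1) b)]
  · refine sum_congr rfl fun d _ => ?_
    unfold vv
    rw [mul_sum]
    refine sum_congr rfl fun N hN => ?_
    rw [mem_filter] at hN
    have h1 : Nat.card N.1 ∣ a * b := hab ▸ Subgroup.card_subgroup_dvd_card N.1
    have h2 := hcop.gcd_mul (Nat.card N.1)
    rw [Nat.gcd_eq_left h1, hN.2] at h2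
    rw [mul_comm d]
    exact h2
  · intro N _
    rw [Nat.mem_divisors]
    exact ⟨Nat.gcd_dvd_right _ _, hb0⟩

theorem filter_divisors {b q b' : ℕ} (hq : q.Prime) (hb : b = q * b') (hb0 : b ≠ 0)
    (h2 : ¬ q ^ 2 ∣ b) : b.divisors.filter (fun d => ¬ q ∣ d) = b'.divisors := by
  have hb'0 : b' ≠ 0 := by
    rintro rfl
    exact hb0 (by rw [hb, mul_zero])
  ext d
  rw [mem_filter, Nat.mem_divisors, Nat.mem_divisors]
  constructor
  · rintro ⟨⟨h3, _⟩, h4⟩
    refine ⟨?_, hb'0⟩
    rw [hb] at h3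
    exact (((Nat.Prime.coprime_iff_not_dvd hq).mpr h4).symm).dvd_of_dvd_mul_left h3
  · rintro ⟨h3, _⟩
    refine ⟨⟨h3.trans ⟨q, by rw [hb, mul_comm]⟩, hb0⟩, ?_⟩
    intro h4
    apply h2
    rw [hb, pow_two]
    exact mul_dvd_mul_left _ (h4.trans h3)

open scoped Classical in
/-- if `q` divides the sum of the orders of the normal subgroups then it divides one of few
positive numbers -/
theorem dvd_of_dvd_sum {G : Type} [Group G] [Fintype G] {a b b' q : ℕ}
    (hab : Nat.card G = a * b) (hcop : Nat.Coprime a b) (hc : Cond (Nat.card G) b)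
    (hq : q.Prime) (hb : b = q * b')
    (h : q ∣ ∑ H : {H : Subgroup G // H.Normal}, Nat.card H) :
    ∃ v : ℕ → ℕ, (∀ d, v d ≤ a * a ^ Nat.log 2 a) ∧ 1 ≤ v 1 ∧
      q ∣ ∑ d ∈ b'.divisors, d * v d := by
  have hn0 : Nat.card G ≠ 0 := Nat.card_pos.ne'
  have hb0 : b ≠ 0 := by
    rintro rfl
    exact hn0 (by rw [hab, mul_zero])
  have ha0 : a ≠ 0 := by
    rintro rfl
    exact hn0 (by rw [hab, zero_mul])
  have h2 : ¬ q ^ 2 ∣ b := fun h3 => (hc q hq ⟨b', hb⟩).1 (h3.trans ⟨a, by rw [hab, mul_comm]⟩)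
  refine ⟨vv G a b, vv_le hab hc, one_le_vv ha0, ?_⟩
  rw [sum_eq hab hcop, ← sum_filter_add_sum_filter_not b.divisors (fun d => q ∣ d),
    filter_divisors hq hb hb0 h2] at h
  refine (Nat.dvd_add_right ?_).mp h
  refine dvd_sum fun d hd => ?_
  rw [mem_filter] at hd
  exact hd.2.mul_right _

end LG
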